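import Pool.Agent.W586.SK.Stm

set_option autoImplicit false

open MeasureTheory Set Filter Topology
open scoped ENNReal InnerProductSpace
open Pool.Agent.H212R2.KLS (mu Bdd)
open Pool.Agent.H888R2.KT (LC zz gs gc pst hs)
open Pool.Agent.W586.SK

namespace Pool.Agent.W924.SK.Flow

/-- the pointwise inequality -/
theorem point (h1 : S_TRANS) {n : ℕ} (g : E n → ℝ) (hg : Sy g) (hg1 : ContDiff ℝ 1 g)
    (i : Fin n) (x d : E n) (hx : 0 < x i) (c : Fin n → ℝ) (hc0 : ∀ j, 0 ≤ c j)
    (hc1 : ∀ j, j ≠ i → d j = -(c j * x j)) (hc2 : ∀ j, j ≠ i → c j ≠ 0 → |x j| ≤ x i)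
    (hc3 : ∑ j ∈ Finset.univ.erase i, c j * |x j| ≤ d i) : fderiv ℝ g x d ≤ 0 := by
  have hd : DifferentiableAt ℝ g x := hg1.differentiable one_ne_zero x
  have h2 : HasDerivAt (fun t : ℝ => g (x + t • d)) (fderiv ℝ g x d) 0 := by
    have h3 : HasDerivAt (fun t : ℝ => x + t • d) d 0 := by
      have := ((hasDerivAt_id (0 : ℝ)).smul_const d).const_add x
      simpa using this
    have h4 : HasFDerivAt g (fderiv ℝ g x) (x + (0 : ℝ) • d) := by
      simpa using hd.hasFDerivAt
    exact h4.comp_hasDerivAt (0 : ℝ) h3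
  have h5 := h2.tendsto_slope_zero_right
  refine le_of_tendsto h5 ?_
  have hM : 0 < 1 + ∑ j, c j := by
    have := Finset.sum_nonneg (fun j (_ : j ∈ Finset.univ) => hc0 j)
    linarith
  have h6 : ∀ᶠ t : ℝ in 𝓝[>] 0, t ∈ Set.Ioo (0 : ℝ) (1 / (1 + ∑ j, c j)) :=
    Ioo_mem_nhdsGT (by positivity)
  filter_upwards [h6] with t ht
  obtain ⟨ht0, ht1⟩ := ht
  have htc : ∀ j, t * c j ≤ 1 := by
    intro j
    have h7 : c j ≤ ∑ j, c j := Finset.single_le_sum (fun j _ => hc0 j) (Finset.mem_univ j)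
    have h8 : t * (1 + ∑ j, c j) < 1 := by
      rwa [lt_div_iff₀ hM] at ht1
    have h9 : t * c j ≤ t * (1 + ∑ j, c j) := mul_le_mul_of_nonneg_left (by linarith) ht0.le
    linarith
  have hle : g (x + t • d) ≤ g x := by
    refine h1 g hg i x (x + t • d) hx.le (fun j => if j = i then 0 else t * c j) ?_ ?_ ?_ ?_
    · intro j
      by_cases hj : j = i
      · simp [hj]
      · simp only [hj, if_false]
        exact ⟨mul_nonneg ht0.le (hc0 j), htc j⟩
    · intro j hj
      simp only [hj, if_false]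
      have h7 : (x + t • d) j = x j + t * d j := by simp
      rw [h7, hc1 j hj]
      ring
    · intro j hj hne
      simp only [hj, if_false] at hne
      exact hc2 j hj (fun h0 => hne (by rw [h0, mul_zero]))
    · have h7 : (x + t • d) i = x i + t * d i := by simp
      rw [h7]
      have h8 : ∑ j ∈ Finset.univ.erase i, (if j = i then 0 else t * c j) * |x j| =
          t * ∑ j ∈ Finset.univ.erase i, c j * |x j| := by
        rw [Finset.mul_sum]
        refine Finset.sum_congr rfl (fun j hj => ?_)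
        rw [if_neg (Finset.ne_of_mem_erase hj)]
        ring
      rw [h8]
      have h9 := mul_le_mul_of_nonneg_left hc3 ht0.le
      linarith
  simp only [zero_add, zero_smul, add_zero, smul_eq_mul]
  exact mul_nonpos_of_nonneg_of_nonpos (inv_nonneg.2 ht0.le) (by linarith)

theorem flow (h1 : S_TRANS) (h2 : S_ZZ) (h3 : S_IBP) (h4 : S_LIM) (h5 : S_FIELD) : S_FLOW := by
  intro n ρ hS hL i a ha F hF hFc hF0 hFi
  obtain ⟨hw, hfield⟩ := h5 i a ha
  set w : E n → E n := fw (24 * a) i with hwdef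
  have hdv : Continuous (dv w) := by
    unfold dv
    refine continuous_finset_sum _ (fun k _ => ?_)
    have h6 : Continuous (fun x => fderiv ℝ w x (EuclideanSpace.single k 1)) :=
      (hw.continuous_fderiv one_ne_zero).clm_apply continuous_const
    exact (EuclideanSpace.proj (𝕜 := ℝ) k).continuous.comp h6
  have hG : Continuous (fun x => fderiv ℝ F x (w x) + F x * dv w x) :=
    ((hF.continuous_fderiv one_ne_zero).clm_apply hw.continuous).add
      (hF.continuous.mul hdv)
  have hGc : HasCompactSupport (fun x => fderiv ℝ F x (w x) + F x * dv w x) := by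
    refine HasCompactSupport.intro hFc.isCompact (fun x hx => ?_)
    have h6 : F x = 0 := image_eq_zero_of_notMem_tsupport hx
    have h7 : fderiv ℝ F x = 0 := by
      have h8 : x ∉ tsupport (fderiv ℝ F) := fun h => hx (tsupport_fderiv_subset ℝ h)
      exact image_eq_zero_of_notMem_tsupport h8
    rw [h6, h7]
    simp
  refine h4 ρ hL _ hG hGc (fun h hh => ?_)
  obtain ⟨hSz, hCz⟩ := h2 ρ hS hL h hh
  rw [h3 (zz h ρ) F w hCz hF hFc hw]
  rw [neg_nonneg]
  refine integral_nonpos (fun x => ?_)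
  show F x * fderiv ℝ (zz h ρ) x (w x) ≤ 0
  rcases le_or_gt (x i) 0 with hx | hx
  · rw [hFi x hx, zero_mul]
  · obtain ⟨_, _, c, hc0, hc1, hc2, hc3⟩ := hfield x hx
    exact mul_nonpos_of_nonneg_of_nonpos (hF0 x)
      (point h1 (zz h ρ) hSz hCz i x (w x) hx c hc0 hc1 hc2 hc3)

end Pool.Agent.W924.SK.Flow
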